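import Pool.Agent.Helper33_CON.GH6

/-!
Squad CON: module G_H5 (half integral roots when the maximal orthogonal frame has size 5)
-/

noncomputable section

namespace Pool.Agent.CON.H60

open Pool.Agent.CON Pool.Agent.CON.H33

variable {M : Type} [AddCommGroup M] {b : M → M → ℤ} {C : Set M} {s : ℤ}

lemma norm_proj5 (hb : PD b) (hC : Irr b C s) {F : Fin 5 → M} (hF : DFr b C s 5 F) {β : M}
    (hβ : β ∈ C) {a : Fin 5 → ℤ} (ha : ∀ i, a i = 1 ∨ a i = -1)
    (haF : ∀ i, b β (F i) = a i * s) :
    b ((4 : ℤ) • β - ∑ i, a i • F i) ((4 : ℤ) • β - ∑ i, a i • F i) = 12 * s := by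
  rw [inner_proj hb hF.1 hF.2.1 haF haF, hC.norm β hβ]
  have : ∑ i, a i * a i = 5 := by
    have h1 : ∀ i, a i * a i = 1 := by
      intro i
      rcases ha i with h | h <;> rw [h] <;> norm_num
    simp [h1]
  rw [this]; ring

theorem g_h5 (hE : G_EXT) (hT : G_TYP) (hFl : G_FLP) : G_HALF 5 := by
  intro M _ b C s F α hb hC hF hmax hα ⟨ε, hε, hαF⟩ hrk
  have hs := hC.pos
  obtain ⟨hF1, hF2, hF3⟩ := id hF
  set W : Submodule ℤ M := Submodule.span ℤ (Set.range (Fin.cons α F : Fin 6 → M)) with hW
  have hαW : α ∈ W := Submodule.subset_span ⟨0, rfl⟩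
  have hFW : ∀ i, F i ∈ W := fun i => Submodule.subset_span ⟨i.succ, by simp⟩
  have hspanW : Submodule.span ℤ (Set.range F) ≤ W := by
    rw [Submodule.span_le]
    rintro _ ⟨i, rfl⟩
    exact hFW i
  have hPα := norm_proj5 hb hC hF hα hε hαF
  have hεε : ∀ i, ε i * ε i = 1 := by
    intro i
    rcases hε i with h | h <;> rw [h] <;> norm_num
  -- no root of type 2 s e_i
  have hno : ∀ β ∈ C, ∀ i0, (b β (F i0) = 2 * s ∨ b β (F i0) = - (2 * s)) →
      (∀ j, j ≠ i0 → b β (F j) = 0) → False := by
    intro β hβ i0 h1 h2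
    obtain ⟨F', hF'⟩ := hE M b C s 5 F β i0 hb hC (by norm_num) hF hβ h1 h2
    exact hmax 6 (by norm_num) F' hF'
  -- the projection of α is orthogonal to F
  have hPF : ∀ x ∈ Submodule.span ℤ (Set.range F), b ((4 : ℤ) • α - ∑ i, ε i • F i) x = 0 := by
    intro x hx
    induction hx using Submodule.span_induction with
    | mem x hx =>
      obtain ⟨j, rfl⟩ := hx
      rw [hb.sub_left, hb.zsmul_left, hαF, hb.sum_left, Finset.sum_eq_single j]
      · rw [hb.zsmul_left, hF1]; ring
      · intro i _ hi
        rw [hb.zsmul_left, hF2 i j hi, mul_zero]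
      · intro h; exact absurd (Finset.mem_univ _) h
    | zero => exact hb.zero_right _
    | add u v _ _ hu hv => rw [hb.add_right, hu, hv, add_zero]
    | smul c u _ hu => rw [hb.zsmul_right, hu, mul_zero]
  -- roots with the same signs
  have hsame : ∀ β ∈ C, (∀ i, b β (F i) = ε i * s) → β = α := by
    intro β hβ hβF
    have h1 := inner_proj hb hF1 hF2 hαF hβF
    have h6 : ∑ i, ε i * ε i = 5 := by simp [hεε]
    rw [h6] at h1
    have hPβ := norm_proj5 hb hC hF hβ hε hβF
    obtain ⟨k, hk⟩ := hC.dvd α hα β hβ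
    rw [hk] at h1
    have hcs := hb.cs ((4 : ℤ) • α - ∑ i, ε i • F i) ((4 : ℤ) • β - ∑ i, ε i • F i)
    rw [hPα, hPβ, h1] at hcs
    -- (16 k s - 20 s)^2 ≤ 144 s^2
    have h2 : (16 * k - 20) ^ 2 ≤ 144 := by
      have : s ^ 2 * ((16 * k - 20) ^ 2) ≤ s ^ 2 * 144 := by nlinarith
      exact le_of_mul_le_mul_left this (by positivity)
    have h3 : k = 1 ∨ k = 2 := by
      have : 1 ≤ k := by nlinarith
      have : k ≤ 2 := by nlinarith
      omega
    rcases h3 with h3 | h3
    · exfalso
      -- flip four signs of β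
      set ε' : Fin 5 → ℤ := fun i => if i = 0 then ε i else - ε i with hε'
      have hε'1 : ∀ i, ε' i = 1 ∨ ε' i = -1 := by
        intro i
        by_cases hi : i = 0
        · simp only [hε', if_pos hi]
          exact hε i
        · simp only [hε', if_neg hi]
          rcases hε i with h | h <;> rw [h] <;> norm_num
      have hprod' : ∏ i, ε i = ∏ i, ε' i := by
        simp only [Fin.prod_univ_five, hε']
        norm_num [Fin.ext_iff]
      obtain ⟨β', hβ', hβ'F, hsp⟩ := flips hFl hb hC hF hε'1 _ β ε le_rfl hβ hε hβF hprod'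
      have h4 := hPF _ hsp
      rw [hb.sub_right, hb.zsmul_right, hb.zsmul_right] at h4
      have e1 : ∀ γ : M, ∀ η : Fin 5 → ℤ, (∀ i, b γ (F i) = η i * s) →
          b ((4 : ℤ) • α - ∑ i, ε i • F i) γ = 4 * b α γ - s * ∑ i, ε i * η i := by
        intro γ η hγ
        rw [hb.sub_left, hb.zsmul_left, hb.sum_left, Finset.mul_sum]
        congr 1
        refine Finset.sum_congr rfl fun i _ => ?_
        rw [hb.zsmul_left, hb.symm, hγ]; ring
      rw [e1 β ε hβF, e1 β' ε' hβ'F, h6, hk, h3] at h4
      have h5 : ∑ i, ε i * ε' i = -3 := by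
        simp only [Fin.sum_univ_five, hε']
        norm_num [Fin.ext_iff, hεε]
      rw [h5] at h4
      have h7 : b α β' = -s := by linarith
      have h8 : α + β' ∈ C := by
        have := hC.refl β' hβ' α hα (-1) (by rw [hb.symm, h7]; ring)
        rwa [neg_one_smul, sub_neg_eq_add] at this
      refine hno (α + β') h8 0 ?_ ?_
      · rw [hb.add_left, hαF, hβ'F]
        rcases hε 0 with h' | h'
        · left; simp [hε', h']; ring
        · right; simp [hε', h']; ring
      · intro j hj
        rw [hb.add_left, hαF, hβ'F]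
        simp [hε', hj]
    · have h4 : α - β = 0 := by
        apply hb.eq_zero
        rw [hb.sub_left, hb.sub_right, hb.sub_right, hb.symm β α, hk, h3, hC.norm α hα,
          hC.norm β hβ]
        linarith
      rw [sub_eq_zero] at h4
      exact h4.symm
  -- half roots
  have hhalf : ∀ β ∈ C, ∀ η : Fin 5 → ℤ, (∀ i, η i = 1 ∨ η i = -1) →
      (∀ i, b β (F i) = η i * s) → (2 : ℤ) • β ∈ W := by
    have key : ∀ β ∈ C, ∀ η : Fin 5 → ℤ, (∀ i, η i = 1 ∨ η i = -1) →
      (∀ i, b β (F i) = η i * s) → ∏ i, η i = ∏ i, ε i → (2 : ℤ) • β ∈ W := by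
      intro β hβ η hη hβF h
      obtain ⟨β', hβ', hβ'F, hsp⟩ := flips hFl hb hC hF hε _ β η le_rfl hβ hη hβF h
      have h1 := hsame β' hβ' hβ'F
      rw [h1] at hsp
      have h2 := Submodule.add_mem _ (hspanW hsp) (Submodule.smul_mem W (2 : ℤ) hαW)
      rwa [sub_add_cancel] at h2
    intro β hβ η hη hβF
    have hprodε : ∏ i, η i = ∏ i, ε i ∨ ∏ i, η i = - ∏ i, ε i := by
      have h1 : ∀ f : Fin 5 → ℤ, (∀ i, f i = 1 ∨ f i = -1) → ∏ i, f i = 1 ∨ ∏ i, f i = -1 := by
        intro f hf
        have : (∏ i, f i) * (∏ i, f i) = 1 := by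
          rw [← Finset.prod_mul_distrib]
          apply Finset.prod_eq_one
          intro i _
          rcases hf i with h | h <;> rw [h] <;> norm_num
        exact mul_self_eq_one_iff.mp this
      rcases h1 η hη with h | h <;> rcases h1 ε hε with h' | h' <;> rw [h, h'] <;> simp
    rcases hprodε with h | h
    · exact key β hβ η hη hβF h
    · have h1 := key (-β) (neg_root hC hβ) (fun i => - η i)
        (fun i => by rcases hη i with h | h <;> rw [h] <;> norm_num)
        (fun i => by rw [hb.neg_left, hβF]; ring)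
        (by
          simp only [Fin.prod_univ_five] at h ⊢
          linarith)
      have h2 := Submodule.neg_mem _ h1
      rwa [smul_neg, neg_neg] at h2
  -- all the roots are in the span
  have hD : {x | x ∈ C ∧ (2 : ℤ) • x ∈ W} = C := by
    refine hC.conn _ (fun x hx => hx.1) ⟨α, hα, Submodule.smul_mem _ _ hαW⟩ ?_
    rintro x ⟨hx, hxW⟩ y hy hyD
    have hy0 : (∀ i, b y (F i) = 0) ∧ b y α = 0 := by
      rcases hT M b C s 5 F y hb hC (by norm_num) hF hy with h | h | h | h
      · refine ⟨h, ?_⟩
        obtain ⟨k, hk⟩ := hC.dvd y hy α hα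
        have hrefl := hC.refl y hy α hα k (by rw [hk]; ring)
        have h1 : ∀ i, b (α - k • y) (F i) = ε i * s := by
          intro i
          rw [hb.sub_left, hb.zsmul_left, h i, hαF]; ring
        have h2 := hsame _ hrefl h1
        have h3 : k • y = 0 := by
          have := sub_eq_self.mp h2
          exact this
        by_cases hk0 : k = 0
        · rw [hk, hk0, mul_zero]
        · exact absurd (hb.zsmul_eq_zero hk0 h3) (by
            intro h0
            have := hC.norm y hy
            rw [h0, hb.zero_left] at this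
            omega)
      · exfalso
        apply hyD
        refine ⟨hy, ?_⟩
        obtain ⟨i, j, -, h | h | h⟩ := h
        · rw [h]; exact Submodule.add_mem _ (hFW i) (hFW j)
        · rw [h]; exact Submodule.sub_mem _ (hFW i) (hFW j)
        · rw [h]; exact Submodule.neg_mem _ (Submodule.add_mem _ (hFW i) (hFW j))
      · obtain ⟨i0, h1, h2⟩ := h
        exact (hno y hy i0 h1 h2).elim
      · obtain ⟨-, η, hη, hyF⟩ := h
        exact absurd ⟨hy, hhalf y hy η hη hyF⟩ hyD
    -- y is orthogonal to W
    have horth : ∀ w ∈ W, b y w = 0 := by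
      intro w hw
      rw [hW] at hw
      induction hw using Submodule.span_induction with
      | mem w hw =>
        obtain ⟨i, rfl⟩ := hw
        refine Fin.cases ?_ (fun i => ?_) i
        · simpa using hy0.2
        · simpa using hy0.1 i
      | zero => exact hb.zero_right y
      | add u v _ _ hu hv => rw [hb.add_right, hu, hv, add_zero]
      | smul c u _ hu => rw [hb.zsmul_right, hu, mul_zero]
    have h1 := horth _ hxW
    rw [hb.zsmul_right] at h1
    rw [hb.symm]
    omega
  have h9 : 9 ≤ 6 := rank_bound (Fin.cons α F : Fin 6 → M) 2 (by norm_num) (fun x hx => by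
    rw [← hD] at hx
    exact hx.2) hrk
  omega

end Pool.Agent.CON.H60

end
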