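import Pool.Agent.Helper56_CON.HA

/-!
Squad CON: module H_B
-/

noncomputable section

namespace Pool.Agent.CON.H60

open Pool.Agent.CON Pool.Agent.CON.H56

theorem h_B (hNOR : E_NOR) (hJ1 : E_J1) (hJ2 : E_J2) (hJ4 : E_J4) (hN2 : E_N2) (hORT : E_ORT)
    (hCAP : E_CAP) (hBIG : E_BIG) : H_B := by
  classical
  intro M _ _ b k C s r i0 i1 hb hC hr h01 hbg hmd hother
  obtain ⟨hs0, hcap⟩ := hbg
  obtain ⟨hs1, hncap, hr1⟩ := hmd
  -- the capable vector
  obtain ⟨X, hX, hX4, hXodd⟩ := hcap
  have hXJ : JB b (C i0) X 2 :=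
    hJ2 M b (C i0) X hb hX ((hN2 M b (C i0) (s i0) hb (hC.irr i0)).2.2 X hX hXodd) hX4
  set E : Finset (Fin k) := Finset.univ.filter fun i => (2 : ℤ) ∣ s i with hEdef
  have hE : ∀ i ∈ E, (2 : ℤ) ∣ s i := fun i hi => (Finset.mem_filter.1 hi).2
  have hiE : i0 ∉ E := fun h => hs0 (hE i0 h)
  have hi1E : i1 ∉ E := fun h => hs1 (hE i1 h)
  have hsum : ∑ i, r i = r i0 + r i1 + ∑ i ∈ E, r i := by
    have hu : (Finset.univ : Finset (Fin k)) = insert i0 (insert i1 E) := by
      ext i
      simp only [Finset.mem_univ, Finset.mem_insert, true_iff]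
      by_cases h1 : i = i0
      · exact Or.inl h1
      · by_cases h2 : i = i1
        · exact Or.inr (Or.inl h2)
        · exact Or.inr (Or.inr (Finset.mem_filter.2 ⟨Finset.mem_univ _, hother i h1 h2⟩))
    rw [hu, Finset.sum_insert (by
        rw [Finset.mem_insert]; exact fun h => h.elim h01 hiE),
      Finset.sum_insert hi1E, add_assoc]
  -- the rank of the middle component
  have hr4 : r i1 ≤ 4 := by
    by_contra h
    exact hCAP M b (C i1) (s i1) hb (hC.irr i1) hs1 hncap (rk_mono (by omega) (hC.rk i1))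
  have big : ∀ m : ℕ, 8 ≤ m → Even m → m + 1 ≤ r i0 → ∃ x ∈ AddSubgroup.closure (C i0),
      (4 : ℤ) ∣ b x x - m ∧ (∃ y ∈ AddSubgroup.closure (C i0), ¬ (2 : ℤ) ∣ b x y) ∧
      JB b (C i0) x (m / 2) := by
    intro m h8 hm hr0
    exact hBIG M b (C i0) (s i0) m hb (hC.irr i0) hs0 h8 hm (rk_mono hr0 (hC.rk i0))
  -- sum of two orthogonal roots in the middle component
  have mid : 3 ≤ r i1 → ∃ y ∈ AddSubgroup.closure (C i1), (4 : ℤ) ∣ b y y ∧
      JB b (C i1) y 2 := by
    intro h3
    obtain ⟨α, hα, β, hβ, hαβ⟩ := hORT M b (C i1) (s i1) hb (hC.irr i1) (rk_mono h3 (hC.rk i1))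
    have hy : α + β ∈ AddSubgroup.closure (C i1) :=
      AddSubgroup.add_mem _ (closure_root hα) (closure_root hβ)
    have hn : (4 : ℤ) ∣ b (α + β) (α + β) := by
      rw [hb.add_left, hb.add_right, hb.add_right, hαβ, hb.symm β α, hαβ,
        (hC.irr i1).norm α hα, (hC.irr i1).norm β hβ]
      exact ⟨s i1, by ring⟩
    exact ⟨α + β, hy, hn, hJ2 M b (C i1) _ hb hy
      ((hN2 M b (C i1) (s i1) hb (hC.irr i1)).2.1 α hα β hβ hαβ) hn⟩
  have sub : ∀ (F : Finset (Fin k)) (m : ℕ), m ≤ F.card → ∃ T ⊆ F, T.card = m := fun F m h =>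
    Finset.exists_subset_card_eq h
  by_cases hE2 : 2 ≤ E.card
  · obtain ⟨T, hT, hTc⟩ := sub E 2 hE2
    refine asmR hNOR hJ1 hJ2 hN2 hb hC i0 X 2 hX (by norm_num) hXJ hXodd T ∅
      (fun i hi => hE i (hT hi)) (by simp) hs0 (by simp) ?_ ?_
    · rw [hTc]; norm_num
    · simpa using hX4
  by_cases hE1 : E.card = 1
  · obtain ⟨e, he⟩ := Finset.card_eq_one.1 hE1
    have hee : e ∈ E := by rw [he]; exact Finset.mem_singleton_self e
    by_cases hR : Rk (C e) 3
    · obtain ⟨α, hα, β, hβ, hαβ⟩ := hORT M b (C e) (s e) hb (hC.irr e) hR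
      have hJ := hJ4 M b (C e) (s e) α β hb (hC.irr e) (hE e hee) hα hβ hαβ
      have hne : i0 ≠ e := fun h => hiE (h ▸ hee)
      refine asm hNOR hb hC i0 X 2 hX (by norm_num) hXJ hXodd {e}
        (by rw [Finset.mem_singleton]; exact hne) (fun _ => α + β) (fun _ => 4) ?_ ?_ ?_ ?_ ?_
      · intro i hi
        rw [Finset.mem_singleton.1 hi]
        exact AddSubgroup.add_mem _ (closure_root hα) (closure_root hβ)
      · intro i _; norm_num
      · intro i hi
        rw [Finset.mem_singleton.1 hi]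
        exact hJ
      · simp
      · rw [Finset.sum_singleton, hb.add_left, hb.add_right, hb.add_right, hαβ, hb.symm β α, hαβ,
          (hC.irr e).norm α hα, (hC.irr e).norm β hβ]
        obtain ⟨c, hc⟩ := hE e hee
        have := hX4
        omega
    have hre : r e ≤ 2 := by
      by_contra h
      exact hR (rk_mono (by omega) (hC.rk e))
    by_cases h3 : 3 ≤ r i1
    · obtain ⟨y, hy, hy4, hyJ⟩ := mid h3
      obtain ⟨ρ, hρ⟩ := (hC.irr e).ne
      have hρJ := JB.root_even hJ2 hN2 hb hC hρ (hE e hee)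
      have hne : i0 ≠ e := fun h => hiE (h ▸ hee)
      have hne1 : i1 ≠ e := fun h => hi1E (h ▸ hee)
      have hT : i0 ∉ ({i1, e} : Finset (Fin k)) := by
        rw [Finset.mem_insert, Finset.mem_singleton]
        exact fun h => h.elim h01 hne
      refine asm hNOR hb hC i0 X 2 hX (by norm_num) hXJ hXodd {i1, e} hT
        (fun i => if i = i1 then y else ρ) (fun _ => 2) ?_ ?_ ?_ ?_ ?_
      · intro i hi
        split_ifs with h
        · rw [h]; exact hy
        · rw [Finset.mem_insert, Finset.mem_singleton] at hi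
          rcases hi with hi | hi
          · exact absurd hi h
          · rw [hi]; exact closure_root hρ
      · intro i _; norm_num
      · intro i hi
        split_ifs with h
        · rw [h]; exact hyJ
        · rw [Finset.mem_insert, Finset.mem_singleton] at hi
          rcases hi with hi | hi
          · exact absurd hi h
          · rw [hi]; exact hρJ
      · rw [Finset.sum_pair hne1]
        norm_num
      · rw [Finset.sum_pair hne1]
        simp only [if_true, if_neg hne1.symm]
        rw [(hC.irr e).norm ρ hρ]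
        obtain ⟨c, hc⟩ := hE e hee
        have := hX4
        omega
    · have hr0 : 9 ≤ r i0 := by
        rw [hsum, he, Finset.sum_singleton] at hr
        omega
      obtain ⟨x, hx, hx4, hxo, hxJ⟩ := big 8 le_rfl (by decide) (by omega)
      refine asmR hNOR hJ1 hJ2 hN2 hb hC i0 x ((8 : ℕ) / 2 : ℤ) hx (by norm_num) hxJ hxo E ∅
        hE (by simp) hs0 (by simp) ?_ ?_
      · rw [hE1]; norm_num
      · push_cast at hx4 ⊢
        simp only [Finset.card_empty, Nat.cast_zero]
        omega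
  have hE0 : E.card = 0 := by omega
  have hE0' : E = ∅ := Finset.card_eq_zero.1 hE0
  rw [hE0', Finset.sum_empty] at hsum
  by_cases h3 : 3 ≤ r i1
  · obtain ⟨y, hy, hy4, hyJ⟩ := mid h3
    obtain ⟨x, hx, hx4, hxo, hxJ⟩ := big 8 le_rfl (by decide) (by omega)
    refine asm hNOR hb hC i0 x ((8 : ℕ) / 2 : ℤ) hx (by norm_num) hxJ hxo {i1}
      (by rw [Finset.mem_singleton]; exact h01) (fun _ => y) (fun _ => 2) ?_ ?_ ?_ ?_ ?_
    · intro i hi
      rw [Finset.mem_singleton.1 hi]
      exact hy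
    · intro i _; norm_num
    · intro i hi
      rw [Finset.mem_singleton.1 hi]
      exact hyJ
    · rw [Finset.sum_singleton]; norm_num
    · rw [Finset.sum_singleton]
      push_cast at hx4
      omega
  · obtain ⟨x, hx, hx4, hxo, hxJ⟩ := big 10 (by norm_num) (by decide) (by omega)
    refine asmR hNOR hJ1 hJ2 hN2 hb hC i0 x ((10 : ℕ) / 2 : ℤ) hx (by norm_num) hxJ hxo ∅ {i1}
      (by simp) (fun i hi => by rw [Finset.mem_singleton.1 hi]; exact hs1) hs0
      (by rw [Finset.mem_singleton]; exact h01) ?_ ?_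
    · rw [Finset.card_singleton]; norm_num
    · rw [Finset.card_singleton]
      push_cast at hx4 ⊢
      omega

end Pool.Agent.CON.H60

end
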